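import Pool.Agent.Q136.ESP.Core

/-!
# Population ratio of periodic patterns in reversible ESPCAs

There is one reversible ESPCA in which every pattern is periodic and in which the ratio of the
largest and the smallest population of a periodic pattern is unbounded.
-/

set_option autoImplicit false

namespace Pool.Agent.Results.MP_b5d889_lc.UnboundedRatio

/-- A cell state `(t, r, b, l)`: the top, right, bottom and left part. -/
abbrev State := Bool × Bool × Bool × Bool

/-- The empty cell state. -/
def empty : State := (false, false, false, false)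

/-- The rotation of cell states. -/
def rho (s : State) : State := (s.2.2.2, s.1, s.2.1, s.2.2.1)

/-- A local function of an ESPCA: the empty state is fixed and it commutes with the rotation. -/
def IsESPCA (f : State → State) : Prop := f empty = empty ∧ ∀ s, f (rho s) = rho (f s)

/-- One time step: a cell reads the bottom part of the upper neighbour, the left part of the right
neighbour, the top part of the lower neighbour and the right part of the left neighbour. -/
def step (f : State → State) (c : ℤ × ℤ → State) (x : ℤ × ℤ) : State :=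
  f ((c (x.1, x.2 + 1)).2.2.1, (c (x.1 + 1, x.2)).2.2.2, (c (x.1, x.2 - 1)).1,
    (c (x.1 - 1, x.2)).2.1)

/-- A pattern: finitely many particles, at least one. -/
def IsPattern (c : ℤ × ℤ → State) : Prop := {x | c x ≠ empty}.Finite ∧ ∃ x, c x ≠ empty

/-- Periodic (no translation allowed). -/
def IsPeriodic (f : State → State) (c : ℤ × ℤ → State) : Prop := ∃ p ≥ 1, (step f)^[p] c = c

/-- The number of particles of a cell state. -/
def weight (s : State) : ℕ := s.1.toNat + s.2.1.toNat + s.2.2.1.toNat + s.2.2.2.toNat

/-- The population, the number of particles. -/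
noncomputable def population (c : ℤ × ℤ → State) : ℕ := ∑ᶠ x, weight (c x)

open Pool.Agent.Q136.ESP in
/-- the cell states as functions on the four directions -/
def e : State ≃ S where
  toFun s := ![s.1, s.2.1, s.2.2.1, s.2.2.2]
  invFun m := (m 0, m 1, m 2, m 3)
  left_inv s := rfl
  right_inv m := by
    funext d
    fin_cases d <;> rfl

theorem e_apply (s : State) (d : Fin 4) : e s d = ![s.1, s.2.1, s.2.2.1, s.2.2.2] d := rfl

/-- the local function -/
def f (s : State) : State := e.symm (Pool.Agent.Q136.ESP.rule (e s))

theorem e_step (c : ℤ × ℤ → State) :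
    (fun x => e (step f c x)) = Pool.Agent.Q136.ESP.G Pool.Agent.Q136.ESP.rule
      (fun x => e (c x)) := by
  funext x
  simp only [step, f, Equiv.apply_symm_apply, Pool.Agent.Q136.ESP.G]
  congr 1
  funext d
  fin_cases d
  · simp [e_apply, Pool.Agent.Q136.ESP.nb, Pool.Agent.Q136.ESP.dx, Pool.Agent.Q136.ESP.dy]
  · simp [e_apply, Pool.Agent.Q136.ESP.nb, Pool.Agent.Q136.ESP.dx, Pool.Agent.Q136.ESP.dy]
  · simp [e_apply, Pool.Agent.Q136.ESP.nb, Pool.Agent.Q136.ESP.dx, Pool.Agent.Q136.ESP.dy,
      sub_eq_add_neg]
  · simp [e_apply, Pool.Agent.Q136.ESP.nb, Pool.Agent.Q136.ESP.dx, Pool.Agent.Q136.ESP.dy,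
      sub_eq_add_neg]

theorem weight_eq (s : State) : weight s = Pool.Agent.Q136.ESP.wt (e s) := by
  simp [weight, Pool.Agent.Q136.ESP.wt, e_apply, Fin.sum_univ_succ, add_assoc]

/-- **Q1 is answered yes and Q2 is answered no, by one automaton**: there is a reversible ESPCA in
which every pattern is periodic and, for every `C`, some periodic pattern has `pmax / pmin > C`. -/
theorem result : ∃ f : State → State, IsESPCA f ∧ Function.Bijective f ∧
    Function.Injective (step f) ∧ (∀ c, IsPattern c → IsPeriodic f c) ∧
    ∀ C : ℝ, ∃ (c : ℤ × ℤ → State) (pmax pmin : ℕ), IsPattern c ∧ IsPeriodic f c ∧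
      IsGreatest (Set.range fun t : ℕ => population ((step f)^[t] c)) pmax ∧
      IsLeast (Set.range fun t : ℕ => population ((step f)^[t] c)) pmin ∧
      1 ≤ pmin ∧ C < (pmax : ℝ) / pmin := by
  obtain ⟨h1, h2, h3⟩ := Pool.Agent.Q136.ESP.transfer e empty (by decide) weight weight_eq
    (step f) e_step
  refine ⟨f, ⟨by decide, by decide⟩, by decide, h1, fun c hc => h2 c hc.1, fun C => ?_⟩
  obtain ⟨c, m, n, hc, hc', hm, hn, hn1, hC⟩ := h3 C
  exact ⟨c, m, n, ⟨hc, hc'⟩, h2 c hc, hm, hn, hn1, hC⟩

end Pool.Agent.Results.MP_b5d889_lc.UnboundedRatio
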